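import Pool.Agent.BED.Stmts

/-!
# Squad BED, row JTA: the series of the Bessel function
-/

namespace Pool.Agent.BED.H24

noncomputable section

/-- The absolute values of the terms. -/
def ja (x : ℝ) (k : ℕ) : ℝ := (x ^ 2) ^ k / (4 ^ k * (k.factorial : ℝ) ^ 2)

theorem ja_nonneg (x : ℝ) (k : ℕ) : 0 ≤ ja x k := by
  unfold ja
  positivity

theorem term_eq (x : ℝ) (k : ℕ) : bj k * x ^ (2 * k) = (-1) ^ k * ja x k := by
  unfold bj ja
  rw [pow_mul]
  ring

theorem ja_summable (x : ℝ) : Summable (ja x) := by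
  refine Summable.of_nonneg_of_le (ja_nonneg x) (fun k => ?_)
    (Real.summable_pow_div_factorial (x ^ 2 / 4))
  unfold ja
  rw [div_pow, div_div]
  apply div_le_div_of_nonneg_left (by positivity) (by positivity)
  apply mul_le_mul_of_nonneg_left _ (by positivity)
  have h : (1 : ℝ) ≤ (k.factorial : ℝ) := by exact_mod_cast k.factorial_pos
  nlinarith

theorem term_summable (x : ℝ) : Summable fun k : ℕ => bj k * x ^ (2 * k) := by
  have h : (fun k : ℕ => bj k * x ^ (2 * k)) = fun k => (-1) ^ k * ja x k := by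
    funext k
    exact term_eq x k
  rw [h]
  exact (ja_summable x).alternating

theorem ja_succ (x : ℝ) (k : ℕ) : ja x (k + 1) = ja x k * (x ^ 2 / (4 * ((k : ℝ) + 1) ^ 2)) := by
  unfold ja
  have h1 : ((k.factorial : ℝ)) ≠ 0 := by exact_mod_cast k.factorial_ne_zero
  have h2 : (k : ℝ) + 1 ≠ 0 := by positivity
  rw [Nat.factorial_succ]
  push_cast
  field_simp
  ring

theorem jta : JtaStmt := by
  refine ⟨term_summable, ?_⟩
  intro x N hx
  have h1 := (term_summable x).sum_add_tsum_nat_add N
  have h2 : j0 x - ∑ k ∈ Finset.range N, bj k * x ^ (2 * k) =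
      ∑' i : ℕ, bj (i + N) * x ^ (2 * (i + N)) := by
    unfold j0
    rw [← h1]
    ring
  have h3 : (fun i : ℕ => bj (i + N) * x ^ (2 * (i + N))) =
      fun i => (-1) ^ N * ((-1) ^ i * ja x (i + N)) := by
    funext i
    rw [term_eq x (i + N), pow_add]
    ring
  have hanti : Antitone fun i : ℕ => ja x (i + N) := by
    apply antitone_nat_of_succ_le
    intro i
    show ja x (i + 1 + N) ≤ ja x (i + N)
    rw [show i + 1 + N = (i + N) + 1 by ring, ja_succ]
    apply mul_le_of_le_one_right (ja_nonneg x _)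
    rw [div_le_one (by positivity)]
    refine hx.trans ?_
    apply mul_le_mul_of_nonneg_left _ (by norm_num)
    apply pow_le_pow_left₀ (by positivity)
    push_cast
    have : (0 : ℝ) ≤ i := Nat.cast_nonneg i
    linarith
  have hsum : Summable fun i : ℕ => ja x (i + N) := (summable_nat_add_iff N).2 (ja_summable x)
  have h4 := alternating_series_error_bound (fun i : ℕ => ja x (i + N)) hanti hsum 0
  rw [Finset.range_zero, Finset.sum_empty, sub_zero] at h4
  rw [h2, h3, tsum_mul_left, abs_mul, abs_pow, abs_neg, abs_one, one_pow, one_mul]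
  refine h4.trans ?_
  have h5 : |bj N| * x ^ (2 * N) = ja x N := by
    have e : 0 ≤ x ^ (2 * N) := by
      rw [pow_mul]
      positivity
    rw [← abs_of_nonneg e, ← abs_mul, term_eq, abs_mul, abs_pow, abs_neg, abs_one, one_pow,
      one_mul, abs_of_nonneg (ja_nonneg x N)]
  rw [h5]
  show ja x (0 + N) ≤ ja x N
  rw [zero_add]

end

end Pool.Agent.BED.H24
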